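import Pool.Agent.Q205.VC.EqK

set_option autoImplicit false

/-!
Vaught's conjecture, perfect-set form, for first-order theories in which equality occurs with one
polarity only (countable relational languages, infinitely many axioms allowed; the relation symbols
are not restricted).

Without equality the dichotomy is a theorem (Ackerman 2015). If equality may occur positively, or if
it may occur negatively, the dichotomy for the theories of this kind is equivalent to the full
conjecture.
-/

namespace Pool.Agent.Results.MP_5df2c5_lc.EqualityFree

open FirstOrder FirstOrder.Language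

/-- `EqualityPolarities Q b φ`: every occurrence of equality in `φ` has a polarity in `Q`, where
`φ` itself counts with polarity `b` (`true` is positive, `false` is negative; the premise of an
implication changes the polarity). Occurrences of relation symbols are free. -/
def EqualityPolarities {L : FirstOrder.Language.{0, 0}} (Q : Bool → Prop) :
    ∀ {m : ℕ}, Bool → L.BoundedFormula Empty m → Prop
  | _, _, .falsum => True
  | _, b, .equal _ _ => Q b
  | _, _, .rel _ _ => True
  | _, b, .imp φ ψ => EqualityPolarities Q (!b) φ ∧ EqualityPolarities Q b ψ
  | _, b, .all φ => EqualityPolarities Q b φ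

/-- Vaught's conjecture, perfect-set form, for the theory `T` in the language `L` (the body of the
frozen statement): the models with universe `ℕ` fall into countably many isomorphism classes, or
some continuous family of models, indexed by the Cantor space, consists of pairwise
non-isomorphic models. -/
def Dichotomy (L : FirstOrder.Language.{0, 0}) (T : L.Theory) : Prop :=
  (∃ g : ℕ → L.Structure ℕ, ∀ S : L.Structure ℕ,
      @FirstOrder.Language.Theory.Model L ℕ S T →
        ∃ n : ℕ, Nonempty (@FirstOrder.Language.Equiv L ℕ ℕ S (g n))) ∨
  (∃ f : (ℕ → Bool) → L.Structure ℕ,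
      (∀ x : ℕ → Bool, @FirstOrder.Language.Theory.Model L ℕ (f x) T) ∧
      (∀ x y : ℕ → Bool,
          Nonempty (@FirstOrder.Language.Equiv L ℕ ℕ (f x) (f y)) → x = y) ∧
      (∀ (n : ℕ) (R : L.Relations n) (a : Fin n → ℕ),
          IsClopen {x : ℕ → Bool | @FirstOrder.Language.Structure.RelMap L ℕ (f x) n R a}) ∧
      (∀ (n : ℕ) (F : L.Functions n) (a : Fin n → ℕ) (b : ℕ),
          IsOpen {x : ℕ → Bool | @FirstOrder.Language.Structure.funMap L ℕ (f x) n F a = b}))

/-- Vaught's conjecture for all first-order theories in all countable languages (the frozen
statement). -/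
def FullConjecture : Prop :=
  ∀ L : FirstOrder.Language.{0, 0}, Countable L.Symbols → ∀ T : L.Theory, Dichotomy L T

/-- Vaught's conjecture for the theories in countable relational languages in whose axioms equality
occurs only with polarities in `Q`. -/
def ForEqualityPolarities (Q : Bool → Prop) : Prop :=
  ∀ L : FirstOrder.Language.{0, 0}, Countable L.Symbols → L.IsRelational → ∀ T : L.Theory,
    (∀ σ ∈ T, EqualityPolarities Q true (σ : L.BoundedFormula Empty 0)) → Dichotomy L T

theorem pol_iff {L : FirstOrder.Language.{0, 0}} (Q : Bool → Prop)
    {m : ℕ} (φ : L.BoundedFormula Empty m) :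
    ∀ b, EqualityPolarities Q b φ ↔ Q205.VC.EqPol Q b φ := by
  induction φ with
  | falsum => exact fun b => Iff.rfl
  | equal _ _ => exact fun b => Iff.rfl
  | rel _ _ => exact fun b => Iff.rfl
  | imp φ ψ ih1 ih2 => exact fun b => and_congr (ih1 (!b)) (ih2 b)
  | all φ ih => exact fun b => ih b

/-- **Theorem.** If equality is allowed with at least one of the two polarities, Vaught's conjecture
for the theories in which it occurs only with the allowed polarities is equivalent to the full
conjecture. -/
theorem result :
    ∀ Q : Bool → Prop, (∃ b, Q b) → (ForEqualityPolarities Q ↔ FullConjecture) := by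
  rintro Q ⟨b, hb⟩
  constructor
  · intro h L' hL' T'
    refine Q205.VC.full_of_eq b Q hb (fun T hT => ?_) L' hL' T'
    exact h Q205.VC.L3 Q205.VC.countable_L3 inferInstance T
      fun σ hσ => (pol_iff Q _ true).2 (hT σ hσ)
  · intro h L hL _ T _
    exact h L hL T

end Pool.Agent.Results.MP_5df2c5_lc.EqualityFree
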