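import Pool.Agent.Results.MP_5df2c5_lc.FiniteFlips
import Pool.Agent.W889.FO.St0
import Pool.Agent.W889.FO.StD
import Pool.Agent.W889.SD.Comb
import Pool.Agent.W889.SD.Deg
import Pool.Agent.Q216.MC.Emb
import Pool.Agent.Q216.MC.FOB

set_option autoImplicit false

/-!
Vaught's conjecture, perfect-set form, for the structures whose Gaifman graphs do not contain any
member of a given family of countable graphs as a subgraph (induced or not): a dichotomy for finite
families, and conditions for infinite families.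
-/

namespace Pool.Agent.Results.MP_5df2c5_lc.ForbiddenSubgraphs

open FirstOrder FirstOrder.Language
open Pool.Agent.Q216.MC (HasInfiniteCliqueSubdivision spiders subdividedClique)

/-- Vaught's conjecture, perfect-set form, for the theory `T` in the language `L` (the body of the
frozen statement): the models with universe `ℕ` fall into countably many isomorphism classes, or
some continuous family of models, indexed by the Cantor space, consists of pairwise
non-isomorphic models. -/
def Dichotomy (L : FirstOrder.Language.{0, 0}) (T : L.Theory) : Prop :=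
  (∃ g : ℕ → L.Structure ℕ, ∀ S : L.Structure ℕ,
      @FirstOrder.Language.Theory.Model L ℕ S T →
        ∃ n : ℕ, Nonempty (@FirstOrder.Language.Equiv L ℕ ℕ S (g n))) ∨
  (∃ f : (ℕ → Bool) → L.Structure ℕ,
      (∀ x : ℕ → Bool, @FirstOrder.Language.Theory.Model L ℕ (f x) T) ∧
      (∀ x y : ℕ → Bool,
          Nonempty (@FirstOrder.Language.Equiv L ℕ ℕ (f x) (f y)) → x = y) ∧
      (∀ (n : ℕ) (R : L.Relations n) (a : Fin n → ℕ),
          IsClopen {x : ℕ → Bool | @FirstOrder.Language.Structure.RelMap L ℕ (f x) n R a}) ∧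
      (∀ (n : ℕ) (F : L.Functions n) (a : Fin n → ℕ) (b : ℕ),
          IsOpen {x : ℕ → Bool | @FirstOrder.Language.Structure.funMap L ℕ (f x) n F a = b}))

/-- Vaught's conjecture for all first-order theories in all countable languages (the frozen
statement). -/
def FullConjecture : Prop :=
  ∀ L : FirstOrder.Language.{0, 0}, Countable L.Symbols → ∀ T : L.Theory, Dichotomy L T

/-- The Gaifman graph: two elements are adjacent if they occur together in a tuple of one of the
relations. -/
def gaifman {L : FirstOrder.Language.{0, 0}} (S : L.Structure ℕ) : SimpleGraph ℕ :=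
  SimpleGraph.fromRel fun u v => ∃ (n : ℕ) (R : L.Relations n) (t : Fin n → ℕ),
    @FirstOrder.Language.Structure.RelMap L ℕ S n R t ∧ u ∈ Set.range t ∧ v ∈ Set.range t

/-- The graph `G` contains no member of the family `H` as a subgraph (induced or not). -/
def Free {ι : Type} {V : ι → Type} (H : ∀ i, SimpleGraph (V i)) (G : SimpleGraph ℕ) : Prop :=
  ∀ i, ¬ (H i).IsContained G

/-- Relational structures on `ℕ` with relations of arities `a 0, a 1, ...`. -/
abbrev Str (a : ℕ → ℕ) : Type := (i : ℕ) → (Fin (a i) → ℕ) → Bool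

/-- Structures with further unary predicates. -/
abbrev UStr (a : ℕ → ℕ) : Type := Str a × (ℕ → ℕ → Bool)

/-- Isomorphism of structures. -/
def Iso {a : ℕ → ℕ} (x y : Str a) : Prop :=
  ∃ σ : Equiv.Perm ℕ, ∀ (i : ℕ) (v : Fin (a i) → ℕ), y i (⇑σ ∘ v) = x i v

/-- Isomorphism of structures with unary predicates. -/
def UIso {a : ℕ → ℕ} (x y : UStr a) : Prop :=
  ∃ σ : Equiv.Perm ℕ, (∀ (i : ℕ) (v : Fin (a i) → ℕ), y.1 i (⇑σ ∘ v) = x.1 i v) ∧
    ∀ i u, y.2 i (σ u) = x.2 i u

/-- The Gaifman graph of `x`. -/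
def gaifmanB {a : ℕ → ℕ} (x : Str a) : SimpleGraph ℕ :=
  SimpleGraph.fromRel fun u v => ∃ (i : ℕ) (t : Fin (a i) → ℕ),
    x i t = true ∧ u ∈ Set.range t ∧ v ∈ Set.range t

/-- The graph with the adjacency relation `y`. -/
def IsGraph (y : ℕ → ℕ → Bool) (G : SimpleGraph ℕ) : Prop := ∀ u v, G.Adj u v ↔ y u v = true

/-- Isomorphism of binary relations on `ℕ`. -/
def BIso (y z : ℕ → ℕ → Bool) : Prop := ∃ σ : Equiv.Perm ℕ, ∀ m n, z (σ m) (σ n) = y m n

/-- The perfect-set Vaught conjecture for the members of `K`: every Borel class of members of `K`,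
invariant under `E`, has countably many `E`-classes or contains a continuous family, indexed by the
Cantor space, of pairwise inequivalent members. -/
def PerfectVaught {X : Type} [TopologicalSpace X] [MeasurableSpace X] (E : X → X → Prop)
    (K : X → Prop) : Prop :=
  ∀ B : Set X, MeasurableSet B → (∀ x y, E x y → (x ∈ B ↔ y ∈ B)) → (∀ x ∈ B, K x) →
    (∃ f : ℕ → X, ∀ x ∈ B, ∃ n, E (f n) x) ∨
    (∃ g : (ℕ → Bool) → X, Continuous g ∧ (∀ c, g c ∈ B) ∧ ∀ c d, E (g c) (g d) → c = d)

/-- `K` is faithfully complete: for every invariant Borel class `B` of structures (in any countable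
relational language) there are an invariant Borel class `B'` of members of `K` and a Borel map `F`
from `B'` to `B` that induces a bijection of the isomorphism types. -/
def FaithfullyComplete {Y : Type} [MeasurableSpace Y] (E : Y → Y → Prop) (K : Y → Prop) : Prop :=
  ∀ (a : ℕ → ℕ) (B : Set (Str a)), MeasurableSet B → (∀ x y, Iso x y → (x ∈ B ↔ y ∈ B)) →
    ∃ (B' : Set Y) (F : Y → Str a), MeasurableSet B' ∧ (∀ y z, E y z → (y ∈ B' ↔ z ∈ B')) ∧
      (∀ y ∈ B', K y) ∧ Measurable F ∧ (∀ y ∈ B', F y ∈ B) ∧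
      (∀ y ∈ B', ∀ z ∈ B', E y z ↔ Iso (F y) (F z)) ∧ ∀ x ∈ B, ∃ y ∈ B', Iso x (F y)

/-- Vaught's conjecture holds for the structures in all countable relational languages whose Gaifman
graphs contain no member of `H`: for all first-order theories of such structures, and for all
isomorphism-invariant Borel classes of such structures with countably many further unary
predicates. -/
def Holds {ι : Type} {V : ι → Type} (H : ∀ i, SimpleGraph (V i)) : Prop :=
  (∀ L : FirstOrder.Language.{0, 0}, Countable L.Symbols → L.IsRelational → ∀ T : L.Theory,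
    (∀ S : L.Structure ℕ, @FirstOrder.Language.Theory.Model L ℕ S T → Free H (gaifman S)) →
      Dichotomy L T) ∧
  ∀ a : ℕ → ℕ, PerfectVaught (UIso (a := a)) fun x => Free H (gaifmanB x.1)

/-- Vaught's conjecture for graphs which contain no member of `H` is Vaught's conjecture for all
structures: this is so for first-order theories (of such graphs, and of arbitrary structures) and
for isomorphism-invariant Borel classes, and these graphs are faithfully complete. -/
def IsComplete {ι : Type} {V : ι → Type} (H : ∀ i, SimpleGraph (V i)) : Prop :=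
  (FullConjecture ↔ ∀ T : FirstOrder.Language.graph.Theory,
    (∀ S : FirstOrder.Language.graph.Structure ℕ,
      @FirstOrder.Language.Theory.Model _ ℕ S T → ∃ G : SimpleGraph ℕ, Free H G ∧
        ∀ u v, G.Adj u v ↔ @FirstOrder.Language.Structure.RelMap _ ℕ S 2 .adj ![u, v]) →
      Dichotomy FirstOrder.Language.graph T) ∧
  (FaithfullyComplete BIso fun y => ∃ G, IsGraph y G ∧ Free H G) ∧
  ((∀ a : ℕ → ℕ, PerfectVaught (Iso (a := a)) fun _ => True) ↔
    PerfectVaught BIso fun y => ∃ G, IsGraph y G ∧ Free H G)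

section positive

variable {ι : Type} {V : ι → Type} {H : ∀ i, SimpleGraph (V i)}

private theorem pair_range {n : ℕ} (hn : n = 2) (u v : ℕ) :
    u ∈ Set.range (FiniteFlips.pair u v : Fin n → ℕ) ∧
      v ∈ Set.range (FiniteFlips.pair u v : Fin n → ℕ) := by
  subst hn
  exact ⟨⟨0, rfl⟩, ⟨1, rfl⟩⟩

private theorem flip_of (hH : ∀ G, HasInfiniteCliqueSubdivision G → ∃ i, (H i).IsContained G)
    {a : ℕ → ℕ} (x : Str a) (hx : Free H (gaifmanB x)) : FiniteFlips.FlipSparse x := by
  have hadj : ∀ i t, x i t = true → ∀ j l, t j = t l ∨ (gaifmanB x).Adj (t j) (t l) := by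
    intro i t h j l
    by_cases e : t j = t l
    · exact Or.inl e
    · exact Or.inr ((SimpleGraph.fromRel_adj _ _ _).2 ⟨e, Or.inl ⟨i, t, h, ⟨j, rfl⟩, ⟨l, rfl⟩⟩⟩)
  refine ⟨gaifmanB x, 1, fun _ => 0, fun _ _ _ => false, fun h => ?_, fun i hi u v huv hn => ?_,
    fun i _ t h j l => hadj i t h j l⟩
  · obtain ⟨i, hi⟩ := hH _ h
    exact hx i hi
  · rw [← Bool.not_eq_true]
    intro h
    obtain ⟨h1, h2⟩ := pair_range hi u v
    exact hn ((SimpleGraph.fromRel_adj _ _ _).2 ⟨huv, Or.inl ⟨i, _, h, h1, h2⟩⟩)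

private theorem positive (hH : ∀ G, HasInfiniteCliqueSubdivision G → ∃ i, (H i).IsContained G) :
    Holds H := by
  have key := fun a => FiniteFlips.result a FiniteFlips.FlipSparse (FiniteFlips.Tame.flip a)
  refine ⟨fun L hL hR T hT => ?_, fun a B h1 h2 h3 => (key a).1 B h1 h2 fun x hx =>
    flip_of hH _ (h3 x hx)⟩
  have hc : Countable (Σ n, L.Relations n) := by
    have hL' : Countable ((Σ n, L.Functions n) ⊕ Σ n, L.Relations n) := hL
    exact (Sum.inr_injective (α := Σ n, L.Functions n) (β := Σ n, L.Relations n)).countable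
  obtain ⟨s, e, he, hse⟩ := Pool.Agent.Q216.MC.exists_enum L
  refine (Pool.Agent.W889.FO.vaughtF_iff L T).2 ?_
  refine Pool.Agent.Q216.MC.fo_of_borel s e he hse FiniteFlips.FlipSparse (key _).2 T
    fun S hS => ?_
  refine flip_of hH _ ?_
  have hg : gaifmanB (a := Pool.Agent.Q216.MC.arN s) (Pool.Agent.Q216.MC.cod s S) = gaifman S := by
    have h1 : ∀ u v, (∃ (m : ℕ) (t : Fin (Pool.Agent.Q216.MC.arN s m) → ℕ),
        Pool.Agent.Q216.MC.cod s S m t = true ∧ u ∈ Set.range t ∧ v ∈ Set.range t) ↔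
        ∃ (n : ℕ) (R : L.Relations n) (t : Fin n → ℕ),
          @FirstOrder.Language.Structure.RelMap L ℕ S n R t ∧ u ∈ Set.range t ∧
            v ∈ Set.range t := by
      intro u v
      constructor
      · rintro ⟨m, t, h1, h2, h3⟩
        by_cases hm : s m = none
        · rw [Pool.Agent.Q216.MC.norm_cod s S m hm t] at h1
          exact absurd h1 (by decide)
        · obtain ⟨⟨n, R⟩, hp⟩ := Option.ne_none_iff_exists'.1 hm
          obtain rfl := hse m _ hp
          refine ⟨n, R, fun i => t (Fin.cast (Pool.Agent.Q216.MC.arN_e s e he ⟨n, R⟩).symm i),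
            (Pool.Agent.Q216.MC.cod_e s e he S R _).1 h1, ?_, ?_⟩
          · obtain ⟨j, hj⟩ := h2
            exact ⟨Fin.cast (Pool.Agent.Q216.MC.arN_e s e he ⟨n, R⟩) j, hj⟩
          · obtain ⟨j, hj⟩ := h3
            exact ⟨Fin.cast (Pool.Agent.Q216.MC.arN_e s e he ⟨n, R⟩) j, hj⟩
      · rintro ⟨n, R, t, h1, ⟨j, hj⟩, ⟨l, hl⟩⟩
        refine ⟨e ⟨n, R⟩, fun i => t (Fin.cast (Pool.Agent.Q216.MC.arN_e s e he ⟨n, R⟩) i),
          (Pool.Agent.Q216.MC.cod_e s e he S R t).2 h1,
          ⟨Fin.cast (Pool.Agent.Q216.MC.arN_e s e he ⟨n, R⟩).symm j, hj⟩,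
          ⟨Fin.cast (Pool.Agent.Q216.MC.arN_e s e he ⟨n, R⟩).symm l, hl⟩⟩
    ext u v
    unfold gaifmanB gaifman
    rw [SimpleGraph.fromRel_adj, SimpleGraph.fromRel_adj, h1, h1]
  rw [hg]
  exact hT S hS

end positive

section negative

open Pool.Agent.W889.SD (Subd)

variable {ι : Type} {V : ι → Type} {H : ∀ i, SimpleGraph (V i)}

private theorem pv {X : Type} [TopologicalSpace X] [MeasurableSpace X] (E : X → X → Prop)
    (K : X → Prop) : PerfectVaught E K ↔ Pool.Agent.W889.VC.VCof True E K := by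
  constructor
  · intro h B h1 h2 h3
    rcases h B h1 h2 h3 with ⟨f, hf⟩ | ⟨g, h3, h4, h5⟩
    · exact Or.inl ⟨f, hf⟩
    · exact Or.inr ⟨g, fun _ => h3, h4, h5⟩
  · intro h B h1 h2 h3
    rcases h B h1 h2 h3 with ⟨f, hf⟩ | ⟨g, h3, h4, h5⟩
    · exact Or.inl ⟨f, hf⟩
    · exact Or.inr ⟨g, h3 trivial, h4, h5⟩

/-- Binary relations as structures with one relation. -/
private theorem pv_bin (h : ∀ a : ℕ → ℕ, PerfectVaught (Iso (a := a)) fun _ => True)
    (K : (ℕ → ℕ → Bool) → Prop) : PerfectVaught BIso K := by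
  let j : (ℕ → ℕ → Bool) → Str (fun _ => 2) := fun y _ v => y (v 0) (v 1)
  let q : Str (fun _ => 2) → (ℕ → ℕ → Bool) := fun x m n => x 0 ![m, n]
  have hqj : ∀ y, q (j y) = y := fun y => rfl
  have hq : Continuous q := continuous_pi fun m => continuous_pi fun n =>
    (continuous_apply _).comp (continuous_apply _)
  have hjc : Continuous j := continuous_pi fun _ => continuous_pi fun v =>
    (continuous_apply (v 1)).comp (continuous_apply (v 0))
  have b1 : BorelSpace (ℕ → ℕ → Bool) := by
    have b0 : BorelSpace (ℕ → Bool) := Pi.borelSpace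
    exact Pi.borelSpace
  have b2 : BorelSpace (Str (fun _ => 2)) := by
    have b0 : BorelSpace ((Fin 2 → ℕ) → Bool) := Pi.borelSpace
    exact Pi.borelSpace
  intro B h1 h2 _
  let B' : Set (Str (fun _ => 2)) := {x | q x ∈ B ∧ j (q x) = x}
  have hB' : MeasurableSet B' := by
    refine (hq.measurable h1).inter ?_
    exact measurableSet_eq_fun (hjc.comp hq).measurable measurable_id
  have hi : ∀ x y : Str (fun _ => 2), Iso x y → x ∈ B' → y ∈ B' := by
    rintro x y ⟨σ, hσ⟩ ⟨h4, h5⟩
    have e : ∀ m n, q y (σ m) (σ n) = q x m n := by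
      intro m n
      show y 0 ![σ m, σ n] = x 0 ![m, n]
      rw [← hσ]
      congr 1
      funext i
      fin_cases i <;> rfl
    refine ⟨(h2 _ _ ⟨σ, e⟩).1 h4, ?_⟩
    funext i v
    show y 0 ![v 0, v 1] = y i v
    have e1 : ![v 0, v 1] = ⇑σ ∘ ![σ.symm (v 0), σ.symm (v 1)] := by
      funext i
      fin_cases i
      · exact (σ.apply_symm_apply (v 0)).symm
      · exact (σ.apply_symm_apply (v 1)).symm
    have e2 : v = ⇑σ ∘ ![σ.symm (v 0), σ.symm (v 1)] := by
      funext i
      fin_cases i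
      · exact (σ.apply_symm_apply (v 0)).symm
      · exact (σ.apply_symm_apply (v 1)).symm
    rw [e1, hσ]
    conv_rhs => rw [e2, hσ]
    have h6 := congrFun (congrFun h5 i) ![σ.symm (v 0), σ.symm (v 1)]
    exact h6
  have hs : ∀ x y : Str (fun _ => 2), Iso x y → Iso y x := by
    rintro x y ⟨σ, hσ⟩
    refine ⟨σ.symm, fun i v => ?_⟩
    rw [← hσ]
    congr 1
    funext i
    simp
  have hiso : ∀ x y : Str (fun _ => 2), Iso x y → BIso (q x) (q y) := by
    rintro x y ⟨σ, hσ⟩
    refine ⟨σ, fun m n => ?_⟩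
    show y 0 ![σ m, σ n] = x 0 ![m, n]
    rw [← hσ]
    congr 1
    funext i
    fin_cases i <;> rfl
  have hjB : ∀ y ∈ B, j y ∈ B' := fun y hy => ⟨hy, rfl⟩
  rcases h _ B' hB' (fun x y hxy => ⟨hi x y hxy, hi y x (hs x y hxy)⟩) (fun _ _ => trivial) with
    ⟨f, hf⟩ | ⟨g, k1, k2, k3⟩
  · left
    refine ⟨fun n => q (f n), fun y hy => ?_⟩
    obtain ⟨n, hn⟩ := hf _ (hjB y hy)
    exact ⟨n, hiso _ _ hn⟩
  · right
    refine ⟨fun c => q (g c), hq.comp k1, fun c => (k2 c).1, fun c d hcd => k3 c d ?_⟩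
    obtain ⟨σ, hσ⟩ := hcd
    refine ⟨σ, fun i v => ?_⟩
    rw [← (k2 c).2, ← (k2 d).2]
    exact hσ (v 0) (v 1)

private theorem negative (k : ℕ) (hH : ∀ y : ℕ → ℕ → Prop, Subd k y → ∀ i,
    ¬ ∃ f : V i → ℕ, Function.Injective f ∧ ∀ u v, (H i).Adj u v → y (f u) (f v)) :
    IsComplete H := by
  have hfree : ∀ (y : ℕ → ℕ → Prop) (hy : Subd k y) (G : SimpleGraph ℕ),
      (∀ u v, G.Adj u v ↔ y u v) → Free H G := by
    rintro y hy G hG i ⟨c⟩
    exact hH y hy i ⟨c, c.injective, fun u v huv => (hG _ _).1 (c.toHom.map_adj huv)⟩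
  have hF : FaithfullyComplete BIso fun y => ∃ G, IsGraph y G ∧ Free H G := by
    have h1 : Pool.Agent.W889.VC.Faithful Pool.Agent.W889.VC.BIso
        (fun y => ∃ G, IsGraph y G ∧ Free H G) := by
      refine (Pool.Agent.W889.SD.faithful_sub k).mono fun y hy => ?_
      have h2 : Subd k fun u v => y u v = true := hy.1
      refine ⟨⟨fun u v => y u v = true, ⟨fun u v h => h2.symm u v h⟩,
        ⟨fun u h => h2.irrefl u h⟩⟩, fun u v => Iff.rfl, ?_⟩
      exact hfree _ h2 _ fun u v => Iff.rfl
    exact h1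
  refine ⟨⟨fun h T _ => h _ ?_ T, fun h L hL T => ?_⟩, hF, ⟨fun h => pv_bin h _, fun h a => ?_⟩⟩
  · have := Pool.Agent.W889.FO.StD.countable_LG
    have h1 : Countable ((Σ n, FirstOrder.Language.graph.Functions n) ⊕
        Σ n, FirstOrder.Language.graph.Relations n) := by
      have h2 : IsEmpty (Σ n, FirstOrder.Language.graph.Functions n) :=
        ⟨fun p => isEmptyElim p.2⟩
      infer_instance
    exact h1
  · refine Pool.Agent.W889.FO.St0.reduce L (fun T' => ?_) T
    have h1 := Pool.Agent.W889.FO.St0.countable_LF (L := L)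
    refine Pool.Agent.W889.FO.to_subd k (fun T2 hT2 => ?_) _ T'
    refine (Pool.Agent.W889.FO.vaughtF_iff _ T2).1 (h T2 fun S hS => ?_)
    have h2 := hT2 S hS
    refine ⟨⟨Pool.Agent.W889.FO.StE.gd S, ⟨fun u v h => h2.symm u v h⟩, ⟨fun u h => h2.irrefl u h⟩⟩, ?_,
      fun u v => Iff.rfl⟩
    exact hfree _ h2 _ fun u v => Iff.rfl
  · rw [pv] at h ⊢
    have hb : BorelSpace (ℕ → ℕ → Bool) := by
      have b0 : BorelSpace (ℕ → Bool) := Pi.borelSpace
      exact Pi.borelSpace
    exact Pool.Agent.W889.VC.Faithful.vaught hF True h a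

end negative

/-- **Theorem.** Let `H` be a family of graphs.
(1) If every countable graph which contains a subdivision of the infinite complete graph contains a
member of `H` as a subgraph, then Vaught's conjecture holds for the structures whose Gaifman graphs
contain no member of `H`.
(2) If, for some `k`, the infinite complete graph with all its edges subdivided `k + 1` times does
not contain any member of `H`, then Vaught's conjecture for the graphs which contain no member of
`H` is equivalent to the full conjecture.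
(3) If `H` is a finite family of countable graphs, then (1) applies if some member of `H` is a
subgraph of a disjoint union of subdivided stars, and otherwise (2) applies. -/
theorem result :
    (∀ (ι : Type) (V : ι → Type) (H : ∀ i, SimpleGraph (V i)),
      (∀ G, HasInfiniteCliqueSubdivision G → ∃ i, (H i).IsContained G) → Holds H) ∧
    (∀ (ι : Type) (V : ι → Type) (H : ∀ i, SimpleGraph (V i)) (k : ℕ),
      (∀ i, ¬ (H i).IsContained (subdividedClique k)) → IsComplete H) ∧
    ∀ (ι : Type) (V : ι → Type) (H : ∀ i, SimpleGraph (V i)), Finite ι → (∀ i, Countable (V i)) →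
      ((∃ i, (H i).IsContained spiders) → Holds H) ∧
      ((¬ ∃ i, (H i).IsContained spiders) → IsComplete H) := by
  refine ⟨fun ι V H h => positive h, fun ι V H k h => ?_, fun ι V H hι hV => ⟨?_, fun h => ?_⟩⟩
  · refine negative k fun y hy i hf => h i ?_
    obtain ⟨f, h1, h2⟩ := hf
    obtain ⟨g, h3, h4⟩ := Pool.Agent.Q216.MC.subd_embed hy
    exact ⟨⟨⟨fun v => g (f v), fun {u v} huv => h4 _ _ (h2 _ _ huv)⟩, h3.comp h1⟩⟩
  · rintro ⟨i, hi⟩
    exact positive fun G hG => ⟨i, hi.trans (Pool.Agent.Q216.MC.spiders_of G hG)⟩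
  · have h1 : ∀ i, ¬ ∃ f : V i → ℕ × Option (ℕ × ℕ), Function.Injective f ∧
        ∀ u v, (H i).Adj u v → Pool.Agent.W889.SD.spiders.Adj (f u) (f v) := by
      rintro i ⟨f, h1, h2⟩
      exact h ⟨i, ⟨⟨⟨f, fun {u v} huv => h2 u v huv⟩, h1⟩⟩⟩
    choose m hm using fun i => Pool.Agent.W889.SD.avoid (H i) (h1 i)
    obtain ⟨k, hk⟩ := (Set.finite_range m).bddAbove
    exact negative k fun y hy i => hm i k (hk ⟨i, rfl⟩) ℕ y hy

end Pool.Agent.Results.MP_5df2c5_lc.ForbiddenSubgraphs
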