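import Pool.Agent.Q216.MI.Hard

set_option autoImplicit false

/-!
Vaught's conjecture, perfect-set form, restricted to the graphs all of whose finite induced
subgraphs belong to a fixed hereditary class of finite graphs, is equivalent to the full conjecture
if the hereditary class is monadically independent.
-/

namespace Pool.Agent.Results.MP_5df2c5_lc.MonadicallyIndependentClasses

open FirstOrder FirstOrder.Language

/-- Vaught's conjecture, perfect-set form, for the theory `T` in the language `L` (the body of the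
frozen statement): the models with universe `ℕ` fall into countably many isomorphism classes, or
some continuous family of models, indexed by the Cantor space, consists of pairwise
non-isomorphic models. -/
def Dichotomy (L : FirstOrder.Language.{0, 0}) (T : L.Theory) : Prop :=
  (∃ g : ℕ → L.Structure ℕ, ∀ S : L.Structure ℕ,
      @FirstOrder.Language.Theory.Model L ℕ S T →
        ∃ n : ℕ, Nonempty (@FirstOrder.Language.Equiv L ℕ ℕ S (g n))) ∨
  (∃ f : (ℕ → Bool) → L.Structure ℕ,
      (∀ x : ℕ → Bool, @FirstOrder.Language.Theory.Model L ℕ (f x) T) ∧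
      (∀ x y : ℕ → Bool,
          Nonempty (@FirstOrder.Language.Equiv L ℕ ℕ (f x) (f y)) → x = y) ∧
      (∀ (n : ℕ) (R : L.Relations n) (a : Fin n → ℕ),
          IsClopen {x : ℕ → Bool | @FirstOrder.Language.Structure.RelMap L ℕ (f x) n R a}) ∧
      (∀ (n : ℕ) (F : L.Functions n) (a : Fin n → ℕ) (b : ℕ),
          IsOpen {x : ℕ → Bool | @FirstOrder.Language.Structure.funMap L ℕ (f x) n F a = b}))

/-- Vaught's conjecture for all first-order theories in all countable languages (the frozen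
statement). -/
def FullConjecture : Prop :=
  ∀ L : FirstOrder.Language.{0, 0}, Countable L.Symbols → ∀ T : L.Theory, Dichotomy L T

/-- Relational structures on `ℕ` with relations of arities `a 0, a 1, ...`. -/
abbrev Str (a : ℕ → ℕ) : Type := (i : ℕ) → (Fin (a i) → ℕ) → Bool

/-- Isomorphism of structures. -/
def Iso {a : ℕ → ℕ} (x y : Str a) : Prop :=
  ∃ σ : Equiv.Perm ℕ, ∀ (i : ℕ) (v : Fin (a i) → ℕ), y i (⇑σ ∘ v) = x i v

/-- The graph with the adjacency relation `y`. -/
def IsGraph (y : ℕ → ℕ → Bool) (G : SimpleGraph ℕ) : Prop := ∀ u v, G.Adj u v ↔ y u v = true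

/-- Isomorphism of binary relations on `ℕ`. -/
def BIso (y z : ℕ → ℕ → Bool) : Prop := ∃ σ : Equiv.Perm ℕ, ∀ m n, z (σ m) (σ n) = y m n

/-- The perfect-set Vaught conjecture for the members of `K`: every Borel class of members of `K`,
invariant under `E`, has countably many `E`-classes or contains a continuous family, indexed by the
Cantor space, of pairwise inequivalent members. -/
def PerfectVaught {X : Type} [TopologicalSpace X] [MeasurableSpace X] (E : X → X → Prop)
    (K : X → Prop) : Prop :=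
  ∀ B : Set X, MeasurableSet B → (∀ x y, E x y → (x ∈ B ↔ y ∈ B)) → (∀ x ∈ B, K x) →
    (∃ f : ℕ → X, ∀ x ∈ B, ∃ n, E (f n) x) ∨
    (∃ g : (ℕ → Bool) → X, Continuous g ∧ (∀ c, g c ∈ B) ∧ ∀ c d, E (g c) (g d) → c = d)

/-- `K` is faithfully complete: for every invariant Borel class `B` of structures (in any countable
relational language) there are an invariant Borel class `B'` of members of `K` and a Borel map `F`
from `B'` to `B` that induces a bijection of the isomorphism types. -/
def FaithfullyComplete {Y : Type} [MeasurableSpace Y] (E : Y → Y → Prop) (K : Y → Prop) : Prop :=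
  ∀ (a : ℕ → ℕ) (B : Set (Str a)), MeasurableSet B → (∀ x y, Iso x y → (x ∈ B ↔ y ∈ B)) →
    ∃ (B' : Set Y) (F : Y → Str a), MeasurableSet B' ∧ (∀ y z, E y z → (y ∈ B' ↔ z ∈ B')) ∧
      (∀ y ∈ B', K y) ∧ Measurable F ∧ (∀ y ∈ B', F y ∈ B) ∧
      (∀ y ∈ B', ∀ z ∈ B', E y z ↔ Iso (F y) (F z)) ∧ ∀ x ∈ B, ∃ y ∈ B', Iso x (F y)

/-- A class of finite graphs; the graphs have the vertex sets `Fin n`. -/
abbrev GraphClass : Type := ∀ n : ℕ, SimpleGraph (Fin n) → Prop

/-- The class is closed under isomorphism and induced subgraphs. -/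
def Hereditary (C : GraphClass) : Prop :=
  ∀ (m n : ℕ) (G : SimpleGraph (Fin m)) (G' : SimpleGraph (Fin n)),
    Nonempty (G' ↪g G) → C m G → C n G'

/-- All finite induced subgraphs of `G` belong to `C`. -/
def AgeIn (C : GraphClass) (G : SimpleGraph ℕ) : Prop :=
  ∀ (n : ℕ) (g : Fin n ↪ ℕ), C n (G.comap g)

/-- The vertices of the `r`-crossings over the ordered set `ι`: the roots `row i` and `col j`, and
the `r` inner vertices `mid i j t` of a path from `row i` to `col j`. -/
inductive Vertex (ι : Type) (r : ℕ) : Type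
  | row (i : ι) : Vertex ι r
  | col (j : ι) : Vertex ι r
  | mid (i j : ι) (t : Fin r) : Vertex ι r

/-- There are `r + 2` layers: the rows, the vertices `mid i j t` for every `t`, and the
columns. -/
def Vertex.layer {ι : Type} {r : ℕ} : Vertex ι r → Fin (r + 2)
  | .row _ => 0
  | .col _ => Fin.last (r + 1)
  | .mid _ _ t => t.succ.castSucc

/-- The three kinds of crossings. -/
inductive Kind : Type
  | star
  | clique
  | half

/-- The edges of the crossings. In all of them, the vertices `mid i j 0, mid i j 1, ...` form a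
path. In star and clique crossings the root `row i` is adjacent to the first vertices `mid i j 0`
of the paths which start from it, and the root `col j` is adjacent to the last vertices of the paths
which end in it. In clique crossings the neighbourhoods of the roots are cliques. In half-graph
crossings `row i` is adjacent to `mid i' j 0` for `i ≤ i'`, and `col j` is adjacent to the last
vertices of the paths from `row i` to `col j'` for `j ≤ j'`. -/
def edge {ι : Type} [LinearOrder ι] {r : ℕ} (κ : Kind) : Vertex ι r → Vertex ι r → Prop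
  | .row i, .mid i' _ t => (t : ℕ) = 0 ∧ (i = i' ∨ (κ = .half ∧ i < i'))
  | .mid i j t, .mid i' j' t' => (i = i' ∧ j = j' ∧ (t' : ℕ) = t + 1) ∨
      (κ = .clique ∧ ((i = i' ∧ (t : ℕ) = 0 ∧ (t' : ℕ) = 0) ∨
        (j = j' ∧ (t : ℕ) + 1 = r ∧ (t' : ℕ) + 1 = r)))
  | .mid _ j t, .col j' => (t : ℕ) + 1 = r ∧ (j = j' ∨ (κ = .half ∧ j' < j))
  | _, _ => False

/-- The star, clique and half-graph `r`-crossings over `ι`. -/
def crossing (κ : Kind) (ι : Type) [LinearOrder ι] (r : ℕ) : SimpleGraph (Vertex ι r) :=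
  SimpleGraph.fromRel (edge κ)

/-- The adjacency is flipped between the layers `a` and `b` with `f a b` (`f` is symmetric). -/
def layerFlip {ι : Type} {r : ℕ} (G : SimpleGraph (Vertex ι r))
    (f : Fin (r + 2) → Fin (r + 2) → Prop) : SimpleGraph (Vertex ι r) :=
  SimpleGraph.fromRel fun u v => ¬ (G.Adj u v ↔ f u.layer v.layer)

/-- The comparability grid over `ι`. -/
def comparabilityGrid (ι : Type) [LinearOrder ι] : SimpleGraph (ι × ι) :=
  SimpleGraph.fromRel fun u v => u.1 = v.1 ∨ u.2 = v.2 ∨ (u.1 < v.1 ↔ u.2 < v.2)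

/-- The graph `G` is a layerwise flipped star, clique or half-graph `r`-crossing of order `k`, or
the comparability grid of order `k`. -/
def IsPattern (r k : ℕ) {n : ℕ} (G : SimpleGraph (Fin n)) : Prop :=
  (∃ (κ : Kind) (f : Fin (r + 2) → Fin (r + 2) → Prop), (∀ a b, f a b → f b a) ∧
    Nonempty (G ≃g layerFlip (crossing κ (Fin k) r) f)) ∨
  Nonempty (G ≃g comparabilityGrid (Fin k))

/-- For some `r ≥ 1` the class contains arbitrarily large patterns. By a theorem of Dreier,
Mählmann and Toruńczyk, this characterises the monadically independent classes among the hereditary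
classes. -/
def MonadicallyIndependent (C : GraphClass) : Prop :=
  ∃ r, 1 ≤ r ∧ ∀ k, ∃ (n : ℕ) (G : SimpleGraph (Fin n)), C n G ∧ IsPattern r k G

/-- Vaught's conjecture for the graphs all of whose finite induced subgraphs belong to `C` is
Vaught's conjecture for all structures: this is so for complete first-order theories (of such
graphs; and arbitrary first-order theories of arbitrary structures) and for isomorphism-invariant
Borel classes, and these graphs are faithfully complete. -/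
def IsComplete (C : GraphClass) : Prop :=
  (FullConjecture ↔ ∀ T : FirstOrder.Language.graph.Theory, T.IsComplete →
    (∀ S : FirstOrder.Language.graph.Structure ℕ,
      @FirstOrder.Language.Theory.Model _ ℕ S T → ∃ G : SimpleGraph ℕ, AgeIn C G ∧
        ∀ u v, G.Adj u v ↔ @FirstOrder.Language.Structure.RelMap _ ℕ S 2 .adj ![u, v]) →
      Dichotomy FirstOrder.Language.graph T) ∧
  (FaithfullyComplete BIso fun y => ∃ G, IsGraph y G ∧ AgeIn C G) ∧
  ((∀ a : ℕ → ℕ, PerfectVaught (Iso (a := a)) fun _ => True) ↔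
    PerfectVaught BIso fun y => ∃ G, IsGraph y G ∧ AgeIn C G)

section combinatorics

variable {ι ι' : Type} [LinearOrder ι] [LinearOrder ι'] {r : ℕ}

/-- change of the indices -/
private def Vertex.map (φ : ι → ι') : Vertex ι r → Vertex ι' r
  | .row i => .row (φ i)
  | .col j => .col (φ j)
  | .mid i j t => .mid (φ i) (φ j) t

/-- the indices of a vertex -/
private def Vertex.idx : Vertex ι r → Set ι
  | .row i => {i}
  | .col j => {j}
  | .mid i j _ => {i, j}

omit [LinearOrder ι] [LinearOrder ι'] in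
private theorem layer_map (φ : ι → ι') (u : Vertex ι r) : (u.map φ).layer = u.layer := by
  cases u <;> rfl

omit [LinearOrder ι] in
private theorem idx_finite (u : Vertex ι r) : u.idx.Finite := by
  cases u with
  | row i => exact Set.finite_singleton i
  | col i => exact Set.finite_singleton i
  | mid i j t => exact (Set.finite_singleton j).insert i

private theorem edge_map {φ : ι → ι'} {s : Set ι} (h : StrictMonoOn φ s) (κ : Kind)
    {u v : Vertex ι r} (hu : u.idx ⊆ s) (hv : v.idx ⊆ s) :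
    edge κ (u.map φ) (v.map φ) ↔ edge κ u v := by
  have e : ∀ {i j : ι}, i ∈ s → j ∈ s → (φ i = φ j ↔ i = j) := fun hi hj => h.eq_iff_eq hi hj
  have l : ∀ {i j : ι}, i ∈ s → j ∈ s → (φ i < φ j ↔ i < j) := fun hi hj => h.lt_iff_lt hi hj
  cases u with
  | row i =>
    have hi : i ∈ s := hu rfl
    cases v with
    | row i' => exact Iff.rfl
    | col j' => exact Iff.rfl
    | mid i' j' t' =>
      have hi' : i' ∈ s := hv (Or.inl rfl)
      show _ ∧ (φ i = φ i' ∨ (_ ∧ φ i < φ i')) ↔ _ ∧ (i = i' ∨ (_ ∧ i < i'))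
      rw [e hi hi', l hi hi']
  | col i =>
    cases v <;> exact Iff.rfl
  | mid i j t =>
    have hi : i ∈ s := hu (Or.inl rfl)
    have hj : j ∈ s := hu (Or.inr rfl)
    cases v with
    | row i' => exact Iff.rfl
    | col j' =>
      have hj' : j' ∈ s := hv rfl
      show _ ∧ (φ j = φ j' ∨ (_ ∧ φ j' < φ j)) ↔ _ ∧ (j = j' ∨ (_ ∧ j' < j))
      rw [e hj hj', l hj' hj]
    | mid i' j' t' =>
      have hi' : i' ∈ s := hv (Or.inl rfl)
      have hj' : j' ∈ s := hv (Or.inr rfl)
      show (φ i = φ i' ∧ φ j = φ j' ∧ _) ∨ (_ ∧ ((φ i = φ i' ∧ _ ∧ _) ∨ (φ j = φ j' ∧ _ ∧ _))) ↔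
        (i = i' ∧ j = j' ∧ _) ∨ (_ ∧ ((i = i' ∧ _ ∧ _) ∨ (j = j' ∧ _ ∧ _)))
      rw [e hi hi', e hj hj']

private theorem map_inj {φ : ι → ι'} {s : Set ι} (h : StrictMonoOn φ s) {u v : Vertex ι r}
    (hu : u.idx ⊆ s) (hv : v.idx ⊆ s) (he : u.map φ = v.map φ) : u = v := by
  cases u with
  | row i =>
    cases v with
    | row i' =>
      have h1 : φ i = φ i' := Vertex.row.inj he
      rw [h.injOn (hu rfl) (hv rfl) h1]
    | col j' => cases he
    | mid i' j' t' => cases he
  | col i =>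
    cases v with
    | col i' =>
      have h1 : φ i = φ i' := Vertex.col.inj he
      rw [h.injOn (hu rfl) (hv rfl) h1]
    | row j' => cases he
    | mid i' j' t' => cases he
  | mid i j t =>
    cases v with
    | row i' => cases he
    | col j' => cases he
    | mid i' j' t' =>
      have h1 := Vertex.mid.inj he
      rw [h.injOn (hu (Or.inl rfl)) (hv (Or.inl rfl)) h1.1,
        h.injOn (hu (Or.inr rfl)) (hv (Or.inr rfl)) h1.2.1, h1.2.2]

private theorem flip_adj (κ : Kind) {f : Fin (r + 2) → Fin (r + 2) → Prop}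
    (hf : ∀ a b, f a b → f b a) (u v : Vertex ι r) :
    (layerFlip (crossing κ ι r) f).Adj u v ↔
      u ≠ v ∧ ¬ ((edge κ u v ∨ edge κ v u) ↔ f u.layer v.layer) := by
  have h1 : f u.layer v.layer ↔ f v.layer u.layer := ⟨hf _ _, hf _ _⟩
  rw [layerFlip, SimpleGraph.fromRel_adj]
  refine and_congr_right fun hne => ?_
  have h2 : (crossing κ ι r).Adj u v ↔ (edge κ u v ∨ edge κ v u) := by
    rw [crossing, SimpleGraph.fromRel_adj]
    exact and_iff_right hne
  rw [SimpleGraph.adj_comm _ v u, h2]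
  tauto

private theorem grid_adj (u v : ι × ι) : (comparabilityGrid ι).Adj u v ↔
    u ≠ v ∧ (u.1 = v.1 ∨ u.2 = v.2 ∨ (u.1 < v.1 ↔ u.2 < v.2)) := by
  rw [comparabilityGrid, SimpleGraph.fromRel_adj]
  refine and_congr_right fun hne => ?_
  have key : ∀ u v : ι × ι, (v.1 = u.1 ∨ v.2 = u.2 ∨ (v.1 < u.1 ↔ v.2 < u.2)) →
      (u.1 = v.1 ∨ u.2 = v.2 ∨ (u.1 < v.1 ↔ u.2 < v.2)) := by
    rintro u v (h | h | h)
    · exact Or.inl h.symm
    · exact Or.inr (Or.inl h.symm)
    · by_cases h1 : u.1 = v.1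
      · exact Or.inl h1
      by_cases h2 : u.2 = v.2
      · exact Or.inr (Or.inl h2)
      refine Or.inr (Or.inr ?_)
      rcases lt_or_gt_of_ne h1 with h3 | h3 <;> rcases lt_or_gt_of_ne h2 with h4 | h4
      · exact iff_of_true h3 h4
      · exact absurd (h.2 h4) (lt_asymm h3)
      · exact absurd (h.1 h3) (lt_asymm h4)
      · exact iff_of_false (lt_asymm h3) (lt_asymm h4)
  constructor
  · rintro (h | h)
    · exact h
    · exact key _ _ h
  · exact Or.inl

/-- finite sets of indices are replaced by numbers -/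
private theorem exists_rank (s : Finset ι) : ∃ (k : ℕ) (φ : ι → Fin k),
    StrictMonoOn φ (s : Set ι) := by
  classical
  refine ⟨s.card + 1, fun x => ⟨(s.filter (· < x)).card,
    Nat.lt_succ_of_le (Finset.card_filter_le _ _)⟩, fun x hx y hy hxy => ?_⟩
  refine Fin.mk_lt_mk.2 (Finset.card_lt_card ?_)
  rw [Finset.ssubset_iff_of_subset]
  · refine ⟨x, Finset.mem_filter.2 ⟨hx, hxy⟩, fun h => ?_⟩
    exact absurd (Finset.mem_filter.1 h).2 (lt_irrefl x)
  · intro z hz
    rw [Finset.mem_filter] at hz ⊢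
    exact ⟨hz.1, hz.2.trans hxy⟩

/-- finite induced subgraphs of infinite crossings -/
private theorem emb_crossing (κ : Kind) {f : Fin (r + 2) → Fin (r + 2) → Prop}
    (hf : ∀ a b, f a b → f b a) {n : ℕ} (G : SimpleGraph (Fin n))
    (e : G ↪g layerFlip (crossing κ ι r) f) :
    ∃ k, Nonempty (G ↪g layerFlip (crossing κ (Fin k) r) f) := by
  classical
  have hfin : (⋃ a, (e a).idx).Finite := Set.finite_iUnion fun a => idx_finite _
  obtain ⟨k, φ, hφ⟩ := exists_rank hfin.toFinset
  rw [hfin.coe_toFinset] at hφ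
  have hs : ∀ a, (e a).idx ⊆ ⋃ a, (e a).idx := fun a => Set.subset_iUnion (fun a => (e a).idx) a
  refine ⟨k, ⟨⟨⟨fun a => (e a).map φ, fun a b hab => ?_⟩, ?_⟩⟩⟩
  · exact e.injective (map_inj hφ (hs a) (hs b) hab)
  · intro a b
    show (layerFlip (crossing κ (Fin k) r) f).Adj ((e a).map φ) ((e b).map φ) ↔ G.Adj a b
    rw [← e.map_adj_iff, flip_adj κ hf, flip_adj κ hf, layer_map, layer_map,
      edge_map hφ κ (hs a) (hs b), edge_map hφ κ (hs b) (hs a)]
    refine and_congr_left fun _ => ?_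
    exact not_congr ⟨fun h => map_inj hφ (hs a) (hs b) h, fun h => by rw [h]⟩

private theorem emb_grid {n : ℕ} (G : SimpleGraph (Fin n)) (e : G ↪g comparabilityGrid ι) :
    ∃ k, Nonempty (G ↪g comparabilityGrid (Fin k)) := by
  classical
  have hfin : (⋃ a, ({(e a).1, (e a).2} : Set ι)).Finite :=
    Set.finite_iUnion fun a => (Set.finite_singleton _).insert _
  obtain ⟨k, φ, hφ⟩ := exists_rank hfin.toFinset
  rw [hfin.coe_toFinset] at hφ
  have hs1 : ∀ a, (e a).1 ∈ ⋃ a, ({(e a).1, (e a).2} : Set ι) := fun a =>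
    Set.mem_iUnion.2 ⟨a, Or.inl rfl⟩
  have hs2 : ∀ a, (e a).2 ∈ ⋃ a, ({(e a).1, (e a).2} : Set ι) := fun a =>
    Set.mem_iUnion.2 ⟨a, Or.inr rfl⟩
  have hinj : ∀ a b, (φ (e a).1, φ (e a).2) = (φ (e b).1, φ (e b).2) → a = b := by
    intro a b h
    have h1 := Prod.mk.inj h
    exact e.injective (Prod.ext (hφ.injOn (hs1 a) (hs1 b) h1.1) (hφ.injOn (hs2 a) (hs2 b) h1.2))
  refine ⟨k, ⟨⟨⟨fun a => (φ (e a).1, φ (e a).2), fun a b hab => hinj a b hab⟩, ?_⟩⟩⟩
  intro a b
  show (comparabilityGrid (Fin k)).Adj (φ (e a).1, φ (e a).2) (φ (e b).1, φ (e b).2) ↔ G.Adj a b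
  rw [← e.map_adj_iff, grid_adj, grid_adj]
  show _ ∧ (φ (e a).1 = φ (e b).1 ∨ φ (e a).2 = φ (e b).2 ∨
    (φ (e a).1 < φ (e b).1 ↔ φ (e a).2 < φ (e b).2)) ↔ _
  rw [hφ.eq_iff_eq (hs1 a) (hs1 b), hφ.eq_iff_eq (hs2 a) (hs2 b), hφ.lt_iff_lt (hs1 a) (hs1 b),
    hφ.lt_iff_lt (hs2 a) (hs2 b)]
  refine and_congr_left fun _ => ?_
  exact not_congr ⟨fun h => by rw [hinj a b h], fun h => by rw [h]⟩

/-- crossings of smaller order -/
private theorem crossing_mono (κ : Kind) {f : Fin (r + 2) → Fin (r + 2) → Prop}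
    (hf : ∀ a b, f a b → f b a) {k k' : ℕ} (hk : k ≤ k') :
    Nonempty (layerFlip (crossing κ (Fin k) r) f ↪g layerFlip (crossing κ (Fin k') r) f) := by
  have hφ : StrictMonoOn (Fin.castLE hk) Set.univ := fun _ _ _ _ h => h
  have hs : ∀ u : Vertex (Fin k) r, u.idx ⊆ Set.univ := fun u => Set.subset_univ _
  refine ⟨⟨⟨fun u => u.map (Fin.castLE hk), fun u v h => map_inj hφ (hs u) (hs v) h⟩, ?_⟩⟩
  intro u v
  show (layerFlip (crossing κ (Fin k') r) f).Adj (u.map _) (v.map _) ↔ _
  rw [flip_adj κ hf, flip_adj κ hf, layer_map, layer_map,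
    edge_map hφ κ (hs u) (hs v), edge_map hφ κ (hs v) (hs u)]
  refine and_congr_left fun _ => ?_
  exact not_congr ⟨fun h => map_inj hφ (hs u) (hs v) h, fun h => by rw [h]⟩

private theorem grid_mono {k k' : ℕ} (hk : k ≤ k') :
    Nonempty (comparabilityGrid (Fin k) ↪g comparabilityGrid (Fin k')) := by
  have hinj : ∀ u v : Fin k × Fin k, (Fin.castLE hk u.1, Fin.castLE hk u.2) =
      (Fin.castLE hk v.1, Fin.castLE hk v.2) → u = v := by
    intro u v h
    have h1 := Prod.mk.inj h
    exact Prod.ext (Fin.castLE_injective hk h1.1) (Fin.castLE_injective hk h1.2)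
  refine ⟨⟨⟨fun u => (Fin.castLE hk u.1, Fin.castLE hk u.2), fun u v h => hinj u v h⟩, ?_⟩⟩
  intro u v
  show (comparabilityGrid (Fin k')).Adj (Fin.castLE hk u.1, Fin.castLE hk u.2)
    (Fin.castLE hk v.1, Fin.castLE hk v.2) ↔ _
  rw [grid_adj, grid_adj]
  show _ ∧ (Fin.castLE hk u.1 = Fin.castLE hk v.1 ∨ Fin.castLE hk u.2 = Fin.castLE hk v.2 ∨
    (Fin.castLE hk u.1 < Fin.castLE hk v.1 ↔ Fin.castLE hk u.2 < Fin.castLE hk v.2)) ↔ _
  rw [(Fin.castLE_injective hk).eq_iff, (Fin.castLE_injective hk).eq_iff]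
  refine and_congr_left fun _ => ?_
  exact not_congr ⟨fun h => hinj u v h, fun h => by rw [h]⟩

/-- all finite induced subgraphs of `H` belong to `C` -/
private def Sub (C : GraphClass) {W : Type} (H : SimpleGraph W) : Prop :=
  ∀ (n : ℕ) (G : SimpleGraph (Fin n)), Nonempty (G ↪g H) → C n G

/-- the class contains all finite induced subgraphs of the patterns of one kind -/
private theorem one_kind {C : GraphClass} (hC : Hereditary C)
    (hp : ∀ k, ∃ (n : ℕ) (G : SimpleGraph (Fin n)), C n G ∧ IsPattern r k G) :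
    (∃ (κ : Kind) (f : Fin (r + 2) → Fin (r + 2) → Prop), (∀ a b, f a b → f b a) ∧
      ∀ (ι : Type) [LinearOrder ι], Sub C (layerFlip (crossing κ ι r) f)) ∨
    ∀ (ι : Type) [LinearOrder ι], Sub C (comparabilityGrid ι) := by
  classical
  have hfk : Finite Kind := by
    refine Finite.of_surjective (fun i : Fin 3 => (match i with
      | 0 => Kind.star
      | 1 => Kind.clique
      | 2 => Kind.half : Kind)) fun κ => ?_
    cases κ
    · exact ⟨0, rfl⟩
    · exact ⟨1, rfl⟩
    · exact ⟨2, rfl⟩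
  have h1 : ∀ k, ∃ τ : Option (Kind × (Fin (r + 2) → Fin (r + 2) → Prop)),
      ∃ (n : ℕ) (G : SimpleGraph (Fin n)), C n G ∧
      ((∃ κ f, τ = some (κ, f) ∧ (∀ a b, f a b → f b a) ∧
        Nonempty (G ≃g layerFlip (crossing κ (Fin k) r) f)) ∨
      (τ = none ∧ Nonempty (G ≃g comparabilityGrid (Fin k)))) := by
    intro k
    obtain ⟨n, G, h2, ⟨κ, f, h3, h4⟩ | h3⟩ := hp k
    · exact ⟨some (κ, f), n, G, h2, Or.inl ⟨κ, f, rfl, h3, h4⟩⟩
    · exact ⟨none, n, G, h2, Or.inr ⟨rfl, h3⟩⟩
  choose τ hτ using h1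
  obtain ⟨t, ht⟩ := Finite.exists_infinite_fiber τ
  have hinf : ∀ k, ∃ k', k ≤ k' ∧ τ k' = t := by
    intro k
    obtain ⟨k', hk', hlt⟩ := (Set.infinite_coe_iff.1 ht).exists_gt k
    exact ⟨k', hlt.le, hk'⟩
  rcases t with _ | ⟨κ, f⟩
  · right
    intro ι _ n G hG
    obtain ⟨e⟩ := hG
    obtain ⟨k, ⟨e1⟩⟩ := emb_grid G e
    obtain ⟨k', hk, hk'⟩ := hinf k
    obtain ⟨m, G', h2, ⟨κ, f, h3, -⟩ | ⟨-, ⟨h3⟩⟩⟩ := hτ k'
    · rw [hk'] at h3
      cases h3
    · obtain ⟨e2⟩ := grid_mono hk
      exact hC m n G' G ⟨(e1.trans e2).trans h3.symm.toEmbedding⟩ h2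
  · left
    have hf : ∀ a b, f a b → f b a := by
      obtain ⟨k', -, hk'⟩ := hinf 0
      obtain ⟨m, G', h2, ⟨κ', f', h3, h4, -⟩ | ⟨h3, -⟩⟩ := hτ k'
      · rw [hk'] at h3
        have h5 := Prod.mk.inj (Option.some.inj h3)
        rw [h5.2]
        exact h4
      · rw [hk'] at h3
        cases h3
    refine ⟨κ, f, hf, ?_⟩
    intro ι _ n G hG
    obtain ⟨e⟩ := hG
    obtain ⟨k, ⟨e1⟩⟩ := emb_crossing κ hf G e
    obtain ⟨k', hk, hk'⟩ := hinf k
    obtain ⟨m, G', h2, ⟨κ', f', h3, -, ⟨h4⟩⟩ | ⟨h3, -⟩⟩ := hτ k'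
    · rw [hk'] at h3
      have h5 := Prod.mk.inj (Option.some.inj h3)
      obtain ⟨rfl, rfl⟩ := h5
      obtain ⟨e2⟩ := crossing_mono (r := r) κ hf hk
      exact hC m n G' G ⟨(e1.trans e2).trans h4.symm.toEmbedding⟩ h2
    · rw [hk'] at h3
      cases h3

end combinatorics

section reductions

open Pool.Agent.Q216.MI (Hard hard_sub hard_half hard_grid)
open Pool.Agent.W889.FO (VaughtF)

variable {r : ℕ}

/-- the flip as a relation between numbers -/
private def fn (f : Fin (r + 2) → Fin (r + 2) → Prop) (a b : ℕ) : Prop :=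
  ∃ (ha : a < r + 2) (hb : b < r + 2), f ⟨a, ha⟩ ⟨b, hb⟩

private theorem fn_symm {f : Fin (r + 2) → Fin (r + 2) → Prop} (hf : ∀ a b, f a b → f b a)
    (a b : ℕ) (h : fn f a b) : fn f b a := by
  obtain ⟨h1, h2, h3⟩ := h
  exact ⟨h2, h1, hf _ _ h3⟩

private theorem fn_iff (f : Fin (r + 2) → Fin (r + 2) → Prop) (a b : Fin (r + 2)) :
    fn f a b ↔ f a b :=
  ⟨fun ⟨_, _, h⟩ => h, fun h => ⟨a.2, b.2, h⟩⟩

/-- translation of the vertices -/
private def cv : Pool.Agent.TH783.FC.Vx r → Vertex ℕ r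
  | .row i => .row i
  | .col j => .col j
  | .pt i j t => .mid i j t

private theorem cv_inj : Function.Injective (cv (r := r)) := by
  intro u v h
  cases u <;> cases v <;> first | (cases h; rfl) | cases h

private theorem cv_lay (u : Pool.Agent.TH783.FC.Vx r) : ((cv u).layer : ℕ) = u.lay := by
  cases u <;> rfl

private theorem cv_edge (s : Bool) (u v : Pool.Agent.TH783.FC.Vx r) :
    edge (if s then Kind.clique else Kind.star) (cv u) (cv v) ↔
      Pool.Agent.TH783.FC.Vx.edge s u v := by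
  have h1 : (if s then Kind.clique else Kind.star) ≠ Kind.half := by
    cases s <;> simp
  have h2 : (if s then Kind.clique else Kind.star) = Kind.clique ↔ s = true := by
    cases s <;> simp
  rcases u with i | j | ⟨i, j, t⟩ <;> rcases v with i' | j' | ⟨i', j', t'⟩ <;>
    try exact Iff.rfl
  · show (t' : ℕ) = 0 ∧ (i = i' ∨ (_ = Kind.half ∧ i < i')) ↔ i = i' ∧ (t' : ℕ) = 0
    tauto
  · show (t : ℕ) + 1 = r ∧ (j = j' ∨ (_ = Kind.half ∧ j' < j)) ↔ j = j' ∧ (t : ℕ) + 1 = r
    tauto
  · show (_ ∨ (_ = Kind.clique ∧ _)) ↔ (_ ∨ (s = true ∧ _))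
    rw [h2]

/-- translation of the vertices -/
private def cw : Pool.Agent.TH783.MD.Vx ℚ r → Vertex ℚ r
  | .row i => .row i
  | .col j => .col j
  | .pt i j t => .mid i j t

private theorem cw_inj : Function.Injective (cw (r := r)) := by
  intro u v h
  cases u <;> cases v <;> first | (cases h; rfl) | cases h

private theorem cw_lay (u : Pool.Agent.TH783.MD.Vx ℚ r) : ((cw u).layer : ℕ) = u.lay := by
  cases u <;> rfl

private theorem cw_edge (u v : Pool.Agent.TH783.MD.Vx ℚ r) :
    edge Kind.half (cw u) (cw v) ↔ Pool.Agent.TH783.MD.he u v := by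
  rcases u with i | j | ⟨i, j, t⟩ <;> rcases v with i' | j' | ⟨i', j', t'⟩ <;>
    try exact Iff.rfl
  · show (t' : ℕ) = 0 ∧ (i = i' ∨ (Kind.half = Kind.half ∧ i < i')) ↔ i ≤ i' ∧ (t' : ℕ) = 0
    rw [le_iff_eq_or_lt]
    tauto
  · show (t : ℕ) + 1 = r ∧ (j = j' ∨ (Kind.half = Kind.half ∧ j' < j)) ↔
      j' ≤ j ∧ (t : ℕ) + 1 = r
    rw [le_iff_eq_or_lt, eq_comm (a := j')]
    tauto
  · show (_ ∨ (Kind.half = Kind.clique ∧ _)) ↔ _
    constructor
    · rintro (h | ⟨h, -⟩)
      · exact h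
      · cases h
    · exact Or.inl

/-- the class of graphs -/
private def Cls (C : GraphClass) (R : ℕ → ℕ → Prop) : Prop :=
  ∃ G : SimpleGraph ℕ, (∀ u v, G.Adj u v ↔ R u v) ∧ AgeIn C G

private theorem cls_of {C : GraphClass} {W : Type} {H : SimpleGraph W} (hs : Sub C H)
    {R : ℕ → ℕ → Prop} (g : ℕ → W) (hg : Function.Injective g)
    (h : ∀ u v, R u v ↔ H.Adj (g u) (g v)) : Cls C R := by
  refine ⟨H.comap g, fun u v => (h u v).symm, fun n e => hs n _ ?_⟩
  exact ⟨⟨⟨fun a => g (e a), hg.comp e.injective⟩, Iff.rfl⟩⟩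

private theorem hard {C : GraphClass} (hC : Hereditary C) (hM : MonadicallyIndependent C) :
    Hard (Cls C) := by
  obtain ⟨r, hr, hp⟩ := hM
  rcases one_kind hC hp with ⟨κ, f, hf, h⟩ | h
  · have key : ∀ s : Bool, κ = (if s then Kind.clique else Kind.star) → Hard (Cls C) := by
      intro s hs
      refine (hard_sub s hr (fn_symm hf)).mono fun R hR => ?_
      obtain ⟨g, h1, h2⟩ := hR
      refine cls_of (h ℕ) (fun u => cv (g u)) (cv_inj.comp h1) fun u v => ?_
      rw [flip_adj κ hf, h2, cv_inj.ne_iff, hs, cv_edge, cv_edge, ← fn_iff f, cv_lay, cv_lay]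
      exact Iff.rfl
    cases κ with
    | star => exact key false rfl
    | clique => exact key true rfl
    | half =>
      refine (hard_half hr (fn_symm hf)).mono fun R hR => ?_
      obtain ⟨g, h1, h2⟩ := hR
      refine cls_of (h ℚ) (fun u => cw (g u)) (cw_inj.comp h1) fun u v => ?_
      rw [flip_adj _ hf, h2, cw_inj.ne_iff, cw_edge, cw_edge, ← fn_iff f, cw_lay, cw_lay]
      exact Iff.rfl
  · refine hard_grid.mono fun R hR => ?_
    obtain ⟨g, h1, h2⟩ := hR
    refine cls_of (h ℚ) g h1 fun u v => ?_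
    rw [grid_adj, h2]
    exact Iff.rfl

private theorem pv {X : Type} [TopologicalSpace X] [MeasurableSpace X] (E : X → X → Prop)
    (K : X → Prop) : PerfectVaught E K ↔ Pool.Agent.W889.VC.VCof True E K := by
  constructor
  · intro h B h1 h2 h3
    rcases h B h1 h2 h3 with ⟨f, hf⟩ | ⟨g, h3, h4, h5⟩
    · exact Or.inl ⟨f, hf⟩
    · exact Or.inr ⟨g, fun _ => h3, h4, h5⟩
  · intro h B h1 h2 h3
    rcases h B h1 h2 h3 with ⟨f, hf⟩ | ⟨g, h3, h4, h5⟩
    · exact Or.inl ⟨f, hf⟩
    · exact Or.inr ⟨g, h3 trivial, h4, h5⟩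

/-- Binary relations as structures with one relation. -/
private theorem pv_bin (h : ∀ a : ℕ → ℕ, PerfectVaught (Iso (a := a)) fun _ => True)
    (K : (ℕ → ℕ → Bool) → Prop) : PerfectVaught BIso K := by
  let j : (ℕ → ℕ → Bool) → Str (fun _ => 2) := fun y _ v => y (v 0) (v 1)
  let q : Str (fun _ => 2) → (ℕ → ℕ → Bool) := fun x m n => x 0 ![m, n]
  have hq : Continuous q := continuous_pi fun m => continuous_pi fun n =>
    (continuous_apply _).comp (continuous_apply _)
  have hjc : Continuous j := continuous_pi fun _ => continuous_pi fun v =>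
    (continuous_apply (v 1)).comp (continuous_apply (v 0))
  have b1 : BorelSpace (ℕ → ℕ → Bool) := by
    have b0 : BorelSpace (ℕ → Bool) := Pi.borelSpace
    exact Pi.borelSpace
  have b2 : BorelSpace (Str (fun _ => 2)) := by
    have b0 : BorelSpace ((Fin 2 → ℕ) → Bool) := Pi.borelSpace
    exact Pi.borelSpace
  intro B h1 h2 _
  let B' : Set (Str (fun _ => 2)) := {x | q x ∈ B ∧ j (q x) = x}
  have hB' : MeasurableSet B' := by
    refine (hq.measurable h1).inter ?_
    exact measurableSet_eq_fun (hjc.comp hq).measurable measurable_id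
  have hi : ∀ x y : Str (fun _ => 2), Iso x y → x ∈ B' → y ∈ B' := by
    rintro x y ⟨σ, hσ⟩ ⟨h4, h5⟩
    have e : ∀ m n, q y (σ m) (σ n) = q x m n := by
      intro m n
      show y 0 ![σ m, σ n] = x 0 ![m, n]
      rw [← hσ]
      congr 1
      funext i
      fin_cases i <;> rfl
    refine ⟨(h2 _ _ ⟨σ, e⟩).1 h4, ?_⟩
    funext i v
    show y 0 ![v 0, v 1] = y i v
    have e1 : ![v 0, v 1] = ⇑σ ∘ ![σ.symm (v 0), σ.symm (v 1)] := by
      funext i
      fin_cases i
      · exact (σ.apply_symm_apply (v 0)).symm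
      · exact (σ.apply_symm_apply (v 1)).symm
    have e2 : v = ⇑σ ∘ ![σ.symm (v 0), σ.symm (v 1)] := by
      funext i
      fin_cases i
      · exact (σ.apply_symm_apply (v 0)).symm
      · exact (σ.apply_symm_apply (v 1)).symm
    rw [e1, hσ]
    conv_rhs => rw [e2, hσ]
    have h6 := congrFun (congrFun h5 i) ![σ.symm (v 0), σ.symm (v 1)]
    exact h6
  have hs : ∀ x y : Str (fun _ => 2), Iso x y → Iso y x := by
    rintro x y ⟨σ, hσ⟩
    refine ⟨σ.symm, fun i v => ?_⟩
    rw [← hσ]
    congr 1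
    funext i
    simp
  have hiso : ∀ x y : Str (fun _ => 2), Iso x y → BIso (q x) (q y) := by
    rintro x y ⟨σ, hσ⟩
    refine ⟨σ, fun m n => ?_⟩
    show y 0 ![σ m, σ n] = x 0 ![m, n]
    rw [← hσ]
    congr 1
    funext i
    fin_cases i <;> rfl
  have hjB : ∀ y ∈ B, j y ∈ B' := fun y hy => ⟨hy, rfl⟩
  rcases h _ B' hB' (fun x y hxy => ⟨hi x y hxy, hi y x (hs x y hxy)⟩) (fun _ _ => trivial) with
    ⟨f, hf⟩ | ⟨g, k1, k2, k3⟩
  · left
    refine ⟨fun n => q (f n), fun y hy => ?_⟩
    obtain ⟨n, hn⟩ := hf _ (hjB y hy)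
    exact ⟨n, hiso _ _ hn⟩
  · right
    refine ⟨fun c => q (g c), hq.comp k1, fun c => (k2 c).1, fun c d hcd => k3 c d ?_⟩
    obtain ⟨σ, hσ⟩ := hcd
    refine ⟨σ, fun i v => ?_⟩
    rw [← (k2 c).2, ← (k2 d).2]
    exact hσ (v 0) (v 1)

end reductions

/-- **Theorem.** Let `C` be a hereditary class of finite graphs that contains, for some `r ≥ 1` and
all `k`, a layerwise flipped star, clique or half-graph `r`-crossing of order `k` or the
comparability grid of order `k` (equivalently, by a theorem of Dreier, Mählmann and Toruńczyk, a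
monadically independent hereditary class). Then Vaught's conjecture, perfect-set form, for the
countable graphs all of whose finite induced subgraphs belong to `C` is equivalent to the full
conjecture, both for complete first-order theories and for invariant Borel classes, and these graphs
are faithfully complete. -/
theorem result (C : GraphClass) (hC : Hereditary C) (hM : MonadicallyIndependent C) :
    IsComplete C := by
  have hh := hard hC hM
  have hF : FaithfullyComplete BIso fun y => ∃ G, IsGraph y G ∧ AgeIn C G := hh.bo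
  refine ⟨⟨fun h T _ _ => h _ ?_ T, fun h L hL T => ?_⟩, hF, ⟨fun h => pv_bin h _, fun h a => ?_⟩⟩
  · have := Pool.Agent.W889.FO.StD.countable_LG
    have h1 : Countable ((Σ n, FirstOrder.Language.graph.Functions n) ⊕
        Σ n, FirstOrder.Language.graph.Relations n) := by
      have h2 : IsEmpty (Σ n, FirstOrder.Language.graph.Functions n) :=
        ⟨fun p => isEmptyElim p.2⟩
      infer_instance
    exact h1
  · refine hh.fo (fun T' hc hT' => h T' hc fun S hS => ?_) L hL T
    obtain ⟨G, h1, h2⟩ := hT' S hS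
    exact ⟨G, h2, h1⟩
  · rw [pv] at h ⊢
    have hb : BorelSpace (ℕ → ℕ → Bool) := by
      have b0 : BorelSpace (ℕ → Bool) := Pi.borelSpace
      exact Pi.borelSpace
    exact Pool.Agent.W889.VC.Faithful.vaught hF True h a

end Pool.Agent.Results.MP_5df2c5_lc.MonadicallyIndependentClasses
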