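import Pool.Agent.Q205.VC.PolF

set_option autoImplicit false

/-!
Vaught's conjecture, perfect-set form, for first-order theories according to the polarities
(positive or negative) with which the relation symbols occur in the axioms. Equality may occur
without any restriction. Countable relational languages, infinitely many axioms allowed.

If only relation symbols of arity at most one may occur with both polarities, the dichotomy holds
for every theory of this kind; as soon as one symbol of arity at least two may occur with both
polarities, the dichotomy for the theories of this kind is equivalent to the full conjecture.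
-/

namespace Pool.Agent.Results.MP_5df2c5_lc.Polarity

open FirstOrder FirstOrder.Language

/-- `Respects P b φ`: every occurrence of a relation symbol `R` in `φ` has a polarity that `P`
allows for `R`, where `φ` itself counts with polarity `b` (`true` is positive, `false` is negative;
the premise of an implication changes the polarity). Occurrences of equality are free. -/
def Respects {L : FirstOrder.Language.{0, 0}} (P : ∀ n, L.Relations n → Bool → Prop) :
    ∀ {m : ℕ}, Bool → L.BoundedFormula Empty m → Prop
  | _, _, .falsum => True
  | _, _, .equal _ _ => True
  | _, b, .rel (l := n) R _ => P n R b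
  | _, b, .imp φ ψ => Respects P (!b) φ ∧ Respects P b ψ
  | _, b, .all φ => Respects P b φ

/-- Vaught's conjecture, perfect-set form, for the theory `T` in the language `L` (the body of the
frozen statement): the models with universe `ℕ` fall into countably many isomorphism classes, or
some continuous family of models, indexed by the Cantor space, consists of pairwise
non-isomorphic models. -/
def Dichotomy (L : FirstOrder.Language.{0, 0}) (T : L.Theory) : Prop :=
  (∃ g : ℕ → L.Structure ℕ, ∀ S : L.Structure ℕ,
      @FirstOrder.Language.Theory.Model L ℕ S T →
        ∃ n : ℕ, Nonempty (@FirstOrder.Language.Equiv L ℕ ℕ S (g n))) ∨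
  (∃ f : (ℕ → Bool) → L.Structure ℕ,
      (∀ x : ℕ → Bool, @FirstOrder.Language.Theory.Model L ℕ (f x) T) ∧
      (∀ x y : ℕ → Bool,
          Nonempty (@FirstOrder.Language.Equiv L ℕ ℕ (f x) (f y)) → x = y) ∧
      (∀ (n : ℕ) (R : L.Relations n) (a : Fin n → ℕ),
          IsClopen {x : ℕ → Bool | @FirstOrder.Language.Structure.RelMap L ℕ (f x) n R a}) ∧
      (∀ (n : ℕ) (F : L.Functions n) (a : Fin n → ℕ) (b : ℕ),
          IsOpen {x : ℕ → Bool | @FirstOrder.Language.Structure.funMap L ℕ (f x) n F a = b}))

/-- Vaught's conjecture for all first-order theories in all countable languages (the frozen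
statement). -/
def FullConjecture : Prop :=
  ∀ L : FirstOrder.Language.{0, 0}, Countable L.Symbols → ∀ T : L.Theory, Dichotomy L T

/-- Vaught's conjecture for the theories whose axioms respect `P`. -/
def ForPolarities (L : FirstOrder.Language.{0, 0}) (P : ∀ n, L.Relations n → Bool → Prop) : Prop :=
  ∀ T : L.Theory, (∀ σ ∈ T, Respects P true (σ : L.BoundedFormula Empty 0)) → Dichotomy L T

theorem respects_iff {L : FirstOrder.Language.{0, 0}} (P : ∀ n, L.Relations n → Bool → Prop)
    {m : ℕ} (φ : L.BoundedFormula Empty m) : ∀ b, Respects P b φ ↔ Q205.VC.Alw P b φ := by
  induction φ with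
  | falsum => exact fun b => Iff.rfl
  | equal _ _ => exact fun b => Iff.rfl
  | rel _ _ => exact fun b => Iff.rfl
  | imp φ ψ ih1 ih2 => exact fun b => and_congr (ih1 (!b)) (ih2 b)
  | all φ ih => exact fun b => ih b

/-- **Theorem.** Let `L` be a countable relational language and say for each relation symbol which
of the two polarities are allowed for its occurrences. (1) If the symbols with both polarities
allowed have arity at most one, Vaught's conjecture holds for every theory whose axioms respect
this. (2) If every symbol has an allowed polarity and some symbol of arity at least two has both,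
Vaught's conjecture for the theories whose axioms respect this is equivalent to the full
conjecture. -/
theorem result (L : FirstOrder.Language.{0, 0}) (hL : Countable L.Symbols) (hr : L.IsRelational)
    (P : ∀ n, L.Relations n → Bool → Prop) :
    ((∀ n (R : L.Relations n), P n R true → P n R false → n ≤ 1) → ForPolarities L P) ∧
    ((∀ n (R : L.Relations n), P n R true ∨ P n R false) →
      (∃ n, 2 ≤ n ∧ ∃ R : L.Relations n, P n R true ∧ P n R false) →
        (ForPolarities L P ↔ FullConjecture)) := by
  have hc : Countable (Σ n, L.Relations n) := by
    have h : Function.Injective (Sum.inr : (Σ n, L.Relations n) → L.Symbols) := Sum.inr_injective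
    exact h.countable
  constructor
  · intro hP T hT
    rcases Q205.VC.fo_mon P hP T (fun σ hσ => (respects_iff P _ true).1 (hT σ hσ)) with
      ⟨g, hg⟩ | ⟨f, h1, h2, h3⟩
    · exact Or.inl ⟨g, hg⟩
    · exact Or.inr ⟨f, h1, h2, h3, fun n F => isEmptyElim F⟩
  · rintro hP ⟨k, hk, Q, h1, h2⟩
    constructor
    · intro h L' hL' T'
      exact Q205.VC.full_of_pol Q P hk h1 h2 hP
        (fun T hT => h T fun σ hσ => (respects_iff P _ true).2 (hT σ hσ)) L' hL' T'
    · intro h T _
      exact h L hL T

end Pool.Agent.Results.MP_5df2c5_lc.Polarity
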